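import Pool.Agent.R935.GS.Main

set_option autoImplicit false

/-!
# Existence of the models
-/

namespace Pool.Agent.R935.GS

open Finset Filter MeasureTheory ProbabilityTheory
open scoped Topology ENNReal

/-- models exist for all sieving functions and all probabilities -/
theorem exists_model (z : ℕ → ℕ) (p : ℕ → ℝ) (hp0 : ∀ n, 0 ≤ p n) (hp1 : ∀ n, p n ≤ 1) (hmono : Monotone z)
    (htend : Tendsto z atTop atTop)
    (hslow : ∃ κ : ℝ, 0 < κ ∧ ∀ᶠ n : ℕ in atTop, (primorial (z n) : ℝ) ≤ (n : ℝ) ^ (1 - κ))
    (hs : ∀ n, ¬ Free (z n) n → p n = 0)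
    (hl : ∀ δ : ℝ, 0 < δ → ∀ᶠ n : ℕ in atTop, Free (z n) n → (n : ℝ) ^ (-δ) ≤ p n) :
    ∃ (μ : Measure (ℕ → Bool)) (_ : IsProbabilityMeasure μ) (ℱ : Filtration ℕ MeasurableSpace.pi)
      (A : ℕ → Set (ℕ → Bool)), Model μ ℱ z A ∧ iIndepSet A μ ∧ ∀ n, μ.real (A n) = p n := by
  classical
  -- the coins
  let P : ℕ → Measure Bool := fun n =>
    ENNReal.ofReal (p n) • Measure.dirac true + ENNReal.ofReal (1 - p n) • Measure.dirac false
  have hP : ∀ n, IsProbabilityMeasure (P n) := by
    intro n
    constructor
    simp only [P, Measure.add_apply, Measure.smul_apply, measure_univ, smul_eq_mul, mul_one]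
    rw [← ENNReal.ofReal_add (hp0 n) (by linarith [hp1 n])]
    simp
  have hPt : ∀ n, (P n {true}) = ENNReal.ofReal (p n) := by
    intro n
    simp [P]
  let A : ℕ → Set (ℕ → Bool) := fun n => if Free (z n) n then {ω | ω n = true} else ∅
  have hm : ∀ n, MeasurableSet {ω : ℕ → Bool | ω n = true} := by
    intro n
    have h1 : MeasurableSet ((fun ω : ℕ → Bool => ω n) ⁻¹' {true}) :=
      measurable_pi_apply n (measurableSet_singleton true)
    exact h1
  have hA : ∀ n, MeasurableSet (A n) := by
    intro n
    simp only [A]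
    split_ifs
    · exact hm n
    · exact MeasurableSet.empty
  have hpr : ∀ n, Measure.infinitePi P {ω | ω n = true} = ENNReal.ofReal (p n) := by
    intro n
    have h1 : Measure.map (fun ω : ℕ → Bool => ω n) (Measure.infinitePi P) {true} = P n {true} := by
      have h2 := Measure.infinitePi_map_eval P n
      exact congrArg (fun ν : Measure Bool => ν {true}) h2
    rw [Measure.map_apply (measurable_pi_apply n) (measurableSet_singleton true), hPt n] at h1
    exact h1
  have hAp : ∀ n, Measure.infinitePi P (A n) = ENNReal.ofReal (p n) := by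
    intro n
    simp only [A]
    split_ifs with h
    · exact hpr n
    · rw [hs n h]
      simp
  have hind : iIndepSet (fun n => {ω : ℕ → Bool | ω n = true}) (Measure.infinitePi P) := by
    rw [iIndepSet_iff_meas_biInter hm]
    intro s
    have h1 : iIndepFun (fun (i : ℕ) (ω : ℕ → Bool) => ω i) (Measure.infinitePi P) :=
      iIndepFun_infinitePi (X := fun (_ : ℕ) (b : Bool) => b) (fun _ => measurable_id)
    exact h1.measure_inter_preimage_eq_mul s (sets := fun _ => {true}) (fun i _ => measurableSet_singleton true)
  have hindA : iIndepSet A (Measure.infinitePi P) := by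
    rw [iIndepSet_iff_meas_biInter hA]
    intro s
    by_cases h : ∀ n ∈ s, Free (z n) n
    · have e1 : (⋂ n ∈ s, A n) = ⋂ n ∈ s, {ω : ℕ → Bool | ω n = true} := by
        apply Set.iInter₂_congr
        intro n hn
        simp only [A]
        rw [if_pos (h n hn)]
      rw [e1, (iIndepSet_iff_meas_biInter hm).1 hind]
      apply Finset.prod_congr rfl
      intro n hn
      simp only [A]
      rw [if_pos (h n hn)]
    · push Not at h
      obtain ⟨n, hn, hnf⟩ := h
      have e0 : A n = ∅ := by simp only [A]; rw [if_neg hnf]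
      have e1 : (⋂ n ∈ s, A n) = ∅ := by
        apply Set.eq_empty_of_forall_notMem
        intro ω hω
        simp only [Set.mem_iInter] at hω
        have := hω n hn
        rw [e0] at this
        exact this
      rw [e1, measure_empty, eq_comm]
      apply Finset.prod_eq_zero hn
      rw [e0, measure_empty]
  have hreal : ∀ n, (Measure.infinitePi P).real (A n) = p n := by
    intro n
    unfold Measure.real
    rw [hAp n, ENNReal.toReal_ofReal (hp0 n)]
  refine ⟨Measure.infinitePi P, inferInstance, filtrationOfSet hA, A, ⟨?_, hmono, htend, hslow, ?_, ?_⟩,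
    hindA, hreal⟩
  · intro n
    exact measurableSet_filtrationOfSet' hA n
  · intro n hn
    simp only [A]
    rw [if_neg hn]
  · intro δ hδ
    have hall : ∀ᵐ ω ∂(Measure.infinitePi P), ∀ n : ℕ,
        ((Measure.infinitePi P)[(A (n + 1)).indicator (fun _ => (1 : ℝ)) | filtrationOfSet hA n]) ω =
          p (n + 1) := by
      rw [ae_all_iff]
      intro n
      filter_upwards [iIndepSet.condExp_indicator_filtrationOfSet_ae_eq hA hindA (Nat.lt_succ_self n)]
        with ω hω
      rw [← hreal (n + 1)]
      exact hω
    filter_upwards [hall] with ω hω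
    have hl' := (tendsto_add_atTop_nat 1).eventually (hl δ hδ)
    filter_upwards [hl'] with n hn hf
    rw [hω n]
    exact hn hf

end Pool.Agent.R935.GS
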