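import Pool.Agent.R935.GS.Main
import Pool.Agent.H381R2.HR.Main

set_option autoImplicit false

/-!
# The improved Hensley-Richards theorem for `rhoStar`
-/

namespace Pool.Agent.R935.GS

open Finset Filter
open scoped Topology

theorem hr (α : ℝ) (hα : α < 1 / 2) : ∀ᶠ y : ℕ in atTop,
    (Nat.primeCounting y : ℝ) + α * (y * Real.log (Real.log (Real.log y)) / (Real.log y) ^ 2) ≤
      (rhoStar y : ℝ) := by
  classical
  obtain ⟨x0, h⟩ := Pool.Agent.H381R2.HR.final hα
  filter_upwards [eventually_ge_atTop ⌈x0⌉₊] with y hy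
  have hy0 : x0 ≤ (y : ℝ) := (Nat.le_ceil x0).trans (by exact_mod_cast hy)
  obtain ⟨S, _, hS, hadm, hcard⟩ := h y hy0
  rw [Nat.floor_natCast] at hcard
  refine hcard.trans ?_
  have hinj : Set.InjOn (fun s : ℤ => (s + 1).toNat) (S : Set ℤ) := by
    intro a ha b hb hab
    have h1 := (hS a ha).1
    have h2 := (hS b hb).1
    simp only at hab
    omega
  have h1 : S.card ≤ rhoStar y := by
    rw [← card_image_of_injOn hinj]
    apply le_rhoStar
    · intro n hn
      rw [mem_image] at hn
      obtain ⟨s, hs, rfl⟩ := hn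
      obtain ⟨h1, h2⟩ := hS s hs
      have h3 : s < (y : ℤ) := by exact_mod_cast h2
      rw [mem_Icc]
      omega
    · intro p hp
      obtain ⟨r, hr⟩ := hadm p hp
      have hp0 : (0 : ℤ) < p := by exact_mod_cast hp.pos
      refine ⟨((r + 1) % p).toNat, fun n hn hc => ?_⟩
      rw [mem_image] at hn
      obtain ⟨s, hs, rfl⟩ := hn
      have h1 := (hS s hs).1
      apply hr s hs
      have h2 : (((s + 1).toNat : ℕ) : ℤ) ≡ ((((r + 1) % p).toNat : ℕ) : ℤ) [ZMOD p] :=
        Int.natCast_modEq_iff.2 hc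
      rw [Int.toNat_of_nonneg (by omega), Int.toNat_of_nonneg (Int.emod_nonneg _ hp0.ne')] at h2
      have h3 : s + 1 ≡ r + 1 [ZMOD p] := h2.trans (Int.mod_modEq _ _)
      have h4 : s ≡ r [ZMOD p] := Int.ModEq.add_right_cancel' 1 h3
      exact (Int.modEq_iff_dvd.1 h4.symm)
  exact_mod_cast h1

lemma growth : Tendsto (fun y : ℕ => (y : ℝ) * Real.log (Real.log (Real.log y)) / (Real.log y) ^ 2) atTop atTop := by
  have hlog : Tendsto (fun y : ℕ => Real.log (y : ℝ)) atTop atTop :=
    Real.tendsto_log_atTop.comp tendsto_natCast_atTop_atTop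
  have hlll : Tendsto (fun y : ℕ => Real.log (Real.log (Real.log (y : ℝ)))) atTop atTop :=
    Real.tendsto_log_atTop.comp (Real.tendsto_log_atTop.comp hlog)
  have h1 : Tendsto (fun y : ℕ => (y : ℝ) / (Real.log y) ^ 2) atTop atTop := by
    have h2 := (Real.isLittleO_pow_log_id_atTop (n := 2)).comp_tendsto
      (tendsto_natCast_atTop_atTop (R := ℝ))
    rw [tendsto_atTop]
    intro b
    have h3 := h2.bound (show (0 : ℝ) < 1 / (|b| + 1) by positivity)
    filter_upwards [h3, eventually_ge_atTop 3] with y hy hy3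
    simp only [Function.comp_apply, id] at hy
    have hy0 : (0 : ℝ) < Real.log y := Real.log_pos (by exact_mod_cast (by omega : 1 < y))
    rw [Real.norm_of_nonneg (by positivity), Real.norm_of_nonneg (Nat.cast_nonneg _)] at hy
    rw [le_div_iff₀ (by positivity)]
    have h4 : (|b| + 1) * Real.log (y : ℝ) ^ 2 ≤ y := by
      calc (|b| + 1) * Real.log (y : ℝ) ^ 2 ≤ (|b| + 1) * (1 / (|b| + 1) * y) :=
            mul_le_mul_of_nonneg_left hy (by positivity)
        _ = y := by field_simp
    have h5 : b * Real.log (y : ℝ) ^ 2 ≤ (|b| + 1) * Real.log (y : ℝ) ^ 2 :=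
      mul_le_mul_of_nonneg_right (by linarith [le_abs_self b]) (by positivity)
    linarith
  have h2 := h1.atTop_mul_atTop₀ hlll
  refine h2.congr (fun y => ?_)
  ring

end Pool.Agent.R935.GS
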