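import Mathlib

set_option autoImplicit false

/-!
# Random sets sieved by growing moduli

A random set of integers `n` without prime factors `≤ z n`, where `z` tends to infinity, chosen one after the
other with conditional probabilities `≥ n ^ (-o(1))` (no independence). Every admissible pattern occurs infinitely
often, so that the limsup `ρ(y)` of the numbers of elements in windows of length `y` is the largest size of an
admissible set in such a window.
-/

namespace Pool.Agent.R935.GS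

open Finset Filter MeasureTheory ProbabilityTheory
open scoped Topology ENNReal

/-- no prime `p ≤ w` divides `n` -/
def Free (w n : ℕ) : Prop := ∀ p : ℕ, p.Prime → p ≤ w → ¬ p ∣ n

/-- `H` misses a class modulo every prime -/
def Admissible (H : Finset ℕ) : Prop := ∀ p : ℕ, p.Prime → ∃ c : ℕ, ∀ h ∈ H, ¬ h ≡ c [MOD p]

lemma dvd_primorial {p w : ℕ} (hp : p.Prime) (h : p ≤ w) : p ∣ primorial w := by
  unfold primorial
  apply Finset.dvd_prod_of_mem
  rw [mem_filter, mem_range]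
  exact ⟨by omega, hp⟩

/-- translates of an admissible set into the free integers -/
lemma crt (H : Finset ℕ) (hH : Admissible H) (w : ℕ) :
    ∃ r : ℕ, r < primorial w ∧ ∀ i : ℕ, ∀ h ∈ H, Free w (r + primorial w * i + h) := by
  choose! c hc using hH
  have hco : Set.Pairwise (((range (w + 1)).filter Nat.Prime : Finset ℕ) : Set ℕ)
      (Function.onFun Nat.Coprime (fun p : ℕ => p)) := by
    intro p hp q hq hpq
    rw [Finset.mem_coe, mem_filter] at hp hq
    exact (Nat.coprime_primes hp.2 hq.2).2 hpq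
  obtain ⟨x, hx⟩ := Nat.chineseRemainderOfFinset (fun p => p * c p - c p) (fun p : ℕ => p)
    ((range (w + 1)).filter Nat.Prime) (fun p hp => (mem_filter.1 hp).2.pos.ne') hco
  have hW : 0 < primorial w := primorial_pos w
  refine ⟨x % primorial w, Nat.mod_lt _ hW, fun i h hh p hp hpw hd => ?_⟩
  have h1 : x ≡ p * c p - c p [MOD p] := hx p (by rw [mem_filter, mem_range]; exact ⟨by omega, hp⟩)
  have h2 : x % primorial w + primorial w * i ≡ x [MOD p] := by
    have h3 : x % primorial w + primorial w * i ≡ x [MOD primorial w] := by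
      have h4 : x % primorial w ≡ x [MOD primorial w] := Nat.mod_modEq _ _
      calc x % primorial w + primorial w * i ≡ x + 0 [MOD primorial w] :=
            Nat.ModEq.add h4 ((Nat.modEq_zero_iff_dvd).2 (Dvd.intro _ rfl))
        _ = x := by rw [add_zero]
    exact h3.of_dvd (dvd_primorial hp hpw)
  have h5 : c p ≤ p * c p := Nat.le_mul_of_pos_left _ hp.pos
  -- `0 ≡ x + h ≡ (p c - c) + h`, so `h ≡ c`
  apply hc p hp h hh
  have h6 : p * c p - c p + h ≡ 0 [MOD p] := by
    have h7 : x % primorial w + primorial w * i + h ≡ p * c p - c p + h [MOD p] :=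
      Nat.ModEq.add (h2.trans h1) (Nat.ModEq.refl h)
    exact h7.symm.trans ((Nat.modEq_zero_iff_dvd).2 hd)
  have h8 : p * c p - c p + c p ≡ 0 [MOD p] := by
    rw [Nat.sub_add_cancel h5]
    exact (Nat.modEq_zero_iff_dvd).2 (Dvd.intro _ rfl)
  exact Nat.ModEq.add_left_cancel' _ (h6.trans h8.symm)

variable {Ω : Type*} [m0 : MeasurableSpace Ω] {μ : Measure Ω} [IsProbabilityMeasure μ]

/-- The model: `A n` is the event that `n` is chosen; the choice may depend on the past (the filtration `ℱ`).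
Only integers `n` without prime factors `≤ z n` can be chosen, where `z` tends to infinity and the product of
the primes `≤ z n` is at most `n ^ (1 - κ)`; for these integers the conditional probability of the choice given
the past is at least `n ^ (-o(1))`, almost surely. -/
structure Model (μ : Measure Ω) (ℱ : Filtration ℕ m0) (z : ℕ → ℕ) (A : ℕ → Set Ω) : Prop where
  adapted : ∀ n, MeasurableSet[ℱ n] (A n)
  mono : Monotone z
  tend : Tendsto z atTop atTop
  slow : ∃ κ : ℝ, 0 < κ ∧ ∀ᶠ n : ℕ in atTop, (primorial (z n) : ℝ) ≤ (n : ℝ) ^ (1 - κ)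
  sieved : ∀ n, ¬ Free (z n) n → A n = ∅
  large : ∀ δ : ℝ, 0 < δ → ∀ᵐ ω ∂μ, ∀ᶠ n : ℕ in atTop, Free (z (n + 1)) (n + 1) →
    ((n + 1 : ℕ) : ℝ) ^ (-δ) ≤ (μ[(A (n + 1)).indicator (fun _ => (1 : ℝ)) | ℱ n]) ω

variable {ℱ : Filtration ℕ m0} {z : ℕ → ℕ} {A : ℕ → Set Ω}

/-- the conditional probability of `A (n + 1)` is less than `c` -/
def Fail (μ : Measure Ω) (ℱ : Filtration ℕ m0) (A : ℕ → Set Ω) (c : ℝ) (n : ℕ) : Set Ω :=
  {ω | (μ[(A (n + 1)).indicator (fun _ => (1 : ℝ)) | ℱ n]) ω < c}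

omit [IsProbabilityMeasure μ] in
lemma fail_meas (c : ℝ) (n : ℕ) : MeasurableSet[ℱ n] (Fail μ ℱ A c n) := by
  have h : Measurable[ℱ n] (μ[(A (n + 1)).indicator (fun _ => (1 : ℝ)) | ℱ n]) :=
    stronglyMeasurable_condExp.measurable
  exact h measurableSet_Iio

/-- one step -/
lemma step (hA : ∀ n, MeasurableSet[ℱ n] (A n)) (c : ℝ) (hc1 : c ≤ 1) (n : ℕ) (D : Set Ω)
    (hD : MeasurableSet[ℱ n] D) :
    c * μ.real D ≤ μ.real (D ∩ (A (n + 1) ∪ Fail μ ℱ A c n)) := by
  have hF := fail_meas (μ := μ) (ℱ := ℱ) (A := A) c n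
  have hA0 : MeasurableSet (A (n + 1)) := ℱ.le (n + 1) _ (hA (n + 1))
  have hD0 : MeasurableSet D := ℱ.le n _ hD
  have hF0 : MeasurableSet (Fail μ ℱ A c n) := ℱ.le n _ hF
  have hDF : MeasurableSet[ℱ n] (D \ Fail μ ℱ A c n) := hD.diff hF
  have hDF0 : MeasurableSet (D \ Fail μ ℱ A c n) := ℱ.le n _ hDF
  -- the part where the conditional probability is large
  have h1 : c * μ.real (D \ Fail μ ℱ A c n) ≤ μ.real ((D \ Fail μ ℱ A c n) ∩ A (n + 1)) := by
    have hint : Integrable ((A (n + 1)).indicator (fun _ => (1 : ℝ))) μ :=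
      (integrable_const (1 : ℝ)).indicator hA0
    have h2 := setIntegral_condExp (ℱ.le n) hint hDF
    have h3 : ∫ ω in D \ Fail μ ℱ A c n, (A (n + 1)).indicator (fun _ => (1 : ℝ)) ω ∂μ =
        μ.real ((D \ Fail μ ℱ A c n) ∩ A (n + 1)) := by
      rw [integral_indicator_const (1 : ℝ) hA0, smul_eq_mul, mul_one, measureReal_restrict_apply hA0,
        Set.inter_comm]
    rw [← h3, ← h2]
    have h4 : c * μ.real (D \ Fail μ ℱ A c n) = ∫ _ω in D \ Fail μ ℱ A c n, c ∂μ := by
      rw [setIntegral_const, smul_eq_mul, mul_comm]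
    rw [h4]
    apply setIntegral_mono_on (integrable_const c).integrableOn integrable_condExp.integrableOn hDF0
    intro ω hω
    have h5 := hω.2
    unfold Fail at h5
    rw [Set.mem_ofPred_eq, not_lt] at h5
    exact h5
  -- the part where it is small
  have h2 : c * μ.real (D ∩ Fail μ ℱ A c n) ≤ μ.real (D ∩ Fail μ ℱ A c n) :=
    mul_le_of_le_one_left measureReal_nonneg hc1
  have h3 : μ.real D = μ.real (D ∩ Fail μ ℱ A c n) + μ.real (D \ Fail μ ℱ A c n) :=
    (measureReal_inter_add_sdiff hF0).symm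
  have h4 : μ.real (D ∩ Fail μ ℱ A c n) + μ.real ((D \ Fail μ ℱ A c n) ∩ A (n + 1)) ≤
      μ.real (D ∩ (A (n + 1) ∪ Fail μ ℱ A c n)) := by
    rw [← measureReal_union (by
      rw [Set.disjoint_left]
      rintro ω ⟨_, h⟩ ⟨⟨_, h'⟩, _⟩
      exact h' h) (hDF0.inter hA0)]
    refine measureReal_mono ?_ (measure_ne_top μ _)
    rintro ω (⟨h, h'⟩ | ⟨⟨h, _⟩, h'⟩)
    · exact ⟨h, Or.inr h'⟩
    · exact ⟨h, Or.inl h'⟩
  rw [h3, mul_add]
  linarith

omit [IsProbabilityMeasure μ] in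
/-- a finite set of steps -/
lemma steps {B : ℕ → Set Ω} (hB : ∀ n, MeasurableSet[ℱ n] (B n)) (c : ℝ) (hc0 : 0 ≤ c) (T : Finset ℕ) (a : ℕ)
    (hT : ∀ n ∈ T, a < n)
    (hstep : ∀ n ∈ T, ∀ D, MeasurableSet[ℱ (n - 1)] D → c * μ.real D ≤ μ.real (D ∩ B n)) (D : Set Ω)
    (hD : MeasurableSet[ℱ a] D) :
    c ^ T.card * μ.real D ≤ μ.real (D ∩ ⋂ n ∈ T, B n) := by
  induction T using Finset.induction_on_max with
  | empty => simp
  | insert M T hM ih =>
    have hnot : M ∉ T := fun h => lt_irrefl _ (hM M h)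
    have h1 := ih (fun n hn => hT n (mem_insert_of_mem hn)) (fun n hn => hstep n (mem_insert_of_mem hn))
    have haM := hT M (mem_insert_self M T)
    have hmeas : MeasurableSet[ℱ (M - 1)] (D ∩ ⋂ n ∈ T, B n) := by
      refine MeasurableSet.inter (ℱ.mono (by omega) _ hD) ?_
      refine @Finset.measurableSet_biInter _ _ (ℱ (M - 1)) _ T ?_
      intro n hn
      have := hM n hn
      exact ℱ.mono (by omega) _ (hB n)
    have h2 := hstep M (mem_insert_self M T) _ hmeas
    have h3 : D ∩ ⋂ n ∈ insert M T, B n = (D ∩ ⋂ n ∈ T, B n) ∩ B M := by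
      ext ω
      simp only [Set.mem_inter_iff, Set.mem_iInter, Finset.mem_insert, forall_eq_or_imp]
      tauto
    rw [h3, card_insert_of_notMem hnot, pow_succ]
    calc c ^ T.card * c * μ.real D = c * (c ^ T.card * μ.real D) := by ring
      _ ≤ c * μ.real (D ∩ ⋂ n ∈ T, B n) := mul_le_mul_of_nonneg_left h1 hc0
      _ ≤ _ := h2

omit m0 in
lemma compl_succ (E : ℕ → Set Ω) (l : ℕ) :
    (⋂ i ∈ range (l + 1), (E i)ᶜ) = (⋂ i ∈ range l, (E i)ᶜ) \ E l := by
  ext ω
  simp only [Set.mem_iInter, mem_range, Set.mem_sdiff, Set.mem_compl_iff]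
  constructor
  · intro h
    exact ⟨fun i hi => h i (by omega), h l (by omega)⟩
  · rintro ⟨h, h'⟩ i hi
    rcases Nat.lt_or_ge i l with h2 | h2
    · exact h i h2
    · have : i = l := by omega
      subst this
      exact h'

/-- none of many events -/
lemma none_le {B : ℕ → Set Ω} (hB : ∀ n, MeasurableSet[ℱ n] (B n)) (c : ℝ) (hc0 : 0 ≤ c) (k : ℕ)
    (T : ℕ → Finset ℕ) (a : ℕ → ℕ) (m : ℕ) (hcard : ∀ i < m, (T i).card = k)
    (hT : ∀ i < m, ∀ n ∈ T i, a i < n) (hT' : ∀ i j, i < j → j < m → ∀ n ∈ T i, n ≤ a j)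
    (hstep : ∀ i < m, ∀ n ∈ T i, ∀ D, MeasurableSet[ℱ (n - 1)] D → c * μ.real D ≤ μ.real (D ∩ B n)) :
    μ.real (⋂ i ∈ range m, (⋂ n ∈ T i, B n)ᶜ) ≤ Real.exp (-(m * c ^ k)) := by
  have key : ∀ l ≤ m, μ.real (⋂ i ∈ range l, (⋂ n ∈ T i, B n)ᶜ) ≤ Real.exp (-(c ^ k)) ^ l := by
    intro l
    induction l with
    | zero =>
      intro _
      simp
    | succ l ih =>
      intro hl
      have h1 := ih (by omega)
      have e : (⋂ i ∈ range (l + 1), (⋂ n ∈ T i, B n)ᶜ) =
          (⋂ i ∈ range l, (⋂ n ∈ T i, B n)ᶜ) \ (⋂ n ∈ T l, B n) := compl_succ (fun i => ⋂ n ∈ T i, B n) l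
      have hDm : MeasurableSet[ℱ (a l)] (⋂ i ∈ range l, (⋂ n ∈ T i, B n)ᶜ) := by
        refine @Finset.measurableSet_biInter _ _ (ℱ (a l)) _ (range l) ?_
        intro i hi
        refine MeasurableSet.compl ?_
        refine @Finset.measurableSet_biInter _ _ (ℱ (a l)) _ (T i) ?_
        intro n hn
        exact ℱ.mono (hT' i l (mem_range.1 hi) (by omega) n hn) _ (hB n)
      have hEm : MeasurableSet (⋂ n ∈ T l, B n) :=
        (T l).measurableSet_biInter fun n _ => ℱ.le n _ (hB n)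
      have h2 := steps (μ := μ) hB c hc0 (T l) (a l) (hT l (by omega)) (hstep l (by omega)) _ hDm
      rw [hcard l (by omega)] at h2
      rw [e]
      have h3 := measureReal_inter_add_sdiff (μ := μ) (s := ⋂ i ∈ range l, (⋂ n ∈ T i, B n)ᶜ) hEm
      have h4 : μ.real ((⋂ i ∈ range l, (⋂ n ∈ T i, B n)ᶜ) \ ⋂ n ∈ T l, B n) ≤
          (1 - c ^ k) * μ.real (⋂ i ∈ range l, (⋂ n ∈ T i, B n)ᶜ) := by
        rw [sub_mul, one_mul]
        linarith
      refine h4.trans ?_
      rw [pow_succ, mul_comm]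
      have h5 : 1 - c ^ k ≤ Real.exp (-(c ^ k)) := by
        have := Real.add_one_le_exp (-(c ^ k))
        linarith
      calc μ.real (⋂ i ∈ range l, (⋂ n ∈ T i, B n)ᶜ) * (1 - c ^ k) ≤
            μ.real (⋂ i ∈ range l, (⋂ n ∈ T i, B n)ᶜ) * Real.exp (-(c ^ k)) :=
            mul_le_mul_of_nonneg_left h5 measureReal_nonneg
        _ ≤ _ := mul_le_mul_of_nonneg_right h1 (Real.exp_nonneg _)
  refine (key m le_rfl).trans (le_of_eq ?_)
  rw [← Real.exp_nat_mul]
  congr 1
  ring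

/-- every admissible pattern occurs -/
theorem pattern (hM : Model μ ℱ z A) (H : Finset ℕ) (hH : Admissible H) (hH0 : ∀ h ∈ H, 1 ≤ h) :
    ∀ᵐ ω ∂μ, ∀ᶠ N : ℕ in atTop, ∃ x : ℕ, N ≤ x ∧ ∀ h ∈ H, ω ∈ A (x + h) := by
  obtain ⟨κ', hκ', hslow'⟩ := hM.slow
  obtain ⟨κ, hκe⟩ : ∃ κ : ℝ, κ = min κ' 1 := ⟨_, rfl⟩
  have hκ : 0 < κ := by rw [hκe]; exact lt_min hκ' one_pos
  have hκ1 : κ ≤ 1 := by rw [hκe]; exact min_le_right _ _
  have hslow : ∀ᶠ n : ℕ in atTop, (primorial (z n) : ℝ) ≤ (n : ℝ) ^ (1 - κ) := by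
    filter_upwards [hslow', eventually_ge_atTop 1] with n hn hn1
    refine hn.trans (Real.rpow_le_rpow_of_exponent_le (by exact_mod_cast hn1) ?_)
    have : κ ≤ κ' := by rw [hκe]; exact min_le_left _ _
    linarith
  obtain ⟨y, hy⟩ : ∃ y : ℕ, ∀ h ∈ H, h ≤ y := ⟨H.sup id, fun h hh => Finset.le_sup (f := id) hh⟩
  obtain ⟨p0, hp0, hp0'⟩ := Nat.exists_infinite_primes (y + 1)
  obtain ⟨k, hk⟩ : ∃ k, k = H.card := ⟨_, rfl⟩
  obtain ⟨δ, hδ⟩ : ∃ δ : ℝ, δ = κ / (2 * (k + 1)) := ⟨_, rfl⟩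
  have hδ0 : 0 < δ := by rw [hδ]; positivity
  have hδk : δ * k ≤ κ / 2 := by
    rw [hδ, div_mul_eq_mul_div, div_le_iff₀ (by positivity)]
    nlinarith
  choose r hr hfree using fun w => crt H hH w
  -- positions
  let W : ℕ → ℕ := fun N => primorial (z (2 * N))
  let x : ℕ → ℕ → ℕ := fun N i => r (z (2 * N)) + W N * (N / W N + 1 + i)
  let m : ℕ → ℕ := fun N => N / (2 * W N)
  -- the modified events
  let c : ℕ → ℝ := fun n => (n : ℝ) ^ (-δ)
  let B : ℕ → Set Ω := fun n => A n ∪ Fail μ ℱ A (c n) (n - 1)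
  have hB : ∀ n, MeasurableSet[ℱ n] (B n) := fun n =>
    (hM.adapted n).union (ℱ.mono (by omega) _ (fail_meas (c n) (n - 1)))
  let bad : ℕ → Set Ω := fun N => ⋂ i ∈ range (m N), (⋂ n ∈ H.image (fun h => x N i + h), B n)ᶜ
  have hWpos : ∀ N, 0 < W N := fun N => primorial_pos _
  have h2N : Tendsto (fun N : ℕ => 2 * N) atTop atTop := tendsto_id.const_mul_atTop' (by norm_num)
  -- the size of `W`
  have hWle : ∀ᶠ N : ℕ in atTop, (W N : ℝ) ≤ (2 * N : ℝ) ^ (1 - κ) := by
    filter_upwards [h2N.eventually hslow] with N hN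
    have : ((2 * N : ℕ) : ℝ) = 2 * (N : ℝ) := by push_cast; ring
    rwa [this] at hN
  have hWge : ∀ᶠ N : ℕ in atTop, y < W N := by
    filter_upwards [h2N.eventually (hM.tend.eventually_ge_atTop p0)] with N hN
    have h1 : p0 ∣ W N := dvd_primorial hp0' hN
    have := Nat.le_of_dvd (hWpos N) h1
    omega
  -- estimates
  have hlog : ∀ᶠ N : ℕ in atTop, 32 * Real.log N ≤ (N : ℝ) ^ (κ / 2) := by
    have h1 := (isLittleO_log_rpow_atTop (show 0 < κ / 2 by positivity)).comp_tendsto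
      tendsto_natCast_atTop_atTop
    have h2 := h1.bound (show (0 : ℝ) < 1 / 32 by norm_num)
    filter_upwards [h2, eventually_ge_atTop 1] with N hN hN1
    simp only [Function.comp_apply] at hN
    have h3 : 0 ≤ Real.log (N : ℝ) := Real.log_nonneg (by exact_mod_cast hN1)
    rw [Real.norm_of_nonneg h3, Real.norm_of_nonneg (by positivity)] at hN
    linarith
  have hbig : ∀ᶠ N : ℕ in atTop, (16 : ℝ) ≤ (N : ℝ) ^ κ :=
    ((tendsto_rpow_atTop hκ).comp tendsto_natCast_atTop_atTop).eventually_ge_atTop _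
  have hWev : ∀ᶠ N : ℕ in atTop, (W N : ℝ) * (N : ℝ) ^ κ ≤ 2 * N ∧ W N * 8 ≤ N := by
    filter_upwards [hWle, hbig, eventually_ge_atTop 8] with N h1 h4 h6
    have hN0 : (0 : ℝ) < N := by exact_mod_cast (by omega : 0 < N)
    have hpow1 : (2 * N : ℝ) ^ (1 - κ) * (N : ℝ) ^ κ ≤ 2 * N := by
      have e1 : (2 * N : ℝ) ^ (1 - κ) = 2 ^ (1 - κ) * (N : ℝ) ^ (1 - κ) :=
        Real.mul_rpow (by norm_num) hN0.le
      have e2 : (N : ℝ) ^ (1 - κ) * (N : ℝ) ^ κ = N := by
        rw [← Real.rpow_add hN0]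
        simp
      have e3 : (2 : ℝ) ^ (1 - κ) ≤ 2 := by
        calc (2 : ℝ) ^ (1 - κ) ≤ 2 ^ (1 : ℝ) :=
              Real.rpow_le_rpow_of_exponent_le (by norm_num) (by linarith)
          _ = 2 := Real.rpow_one _
      rw [e1, mul_assoc, e2]
      exact mul_le_mul_of_nonneg_right e3 hN0.le
    have hWN : (W N : ℝ) * (N : ℝ) ^ κ ≤ 2 * N :=
      (mul_le_mul_of_nonneg_right h1 (by positivity)).trans hpow1
    refine ⟨hWN, ?_⟩
    have hW4 : (W N : ℝ) * 8 ≤ N := by
      have h7 : (W N : ℝ) * 16 ≤ (W N : ℝ) * (N : ℝ) ^ κ := mul_le_mul_of_nonneg_left h4 (Nat.cast_nonneg _)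
      linarith
    exact_mod_cast hW4
  have hxev : ∀ᶠ N : ℕ in atTop, ∀ i < m N, N < x N i ∧ x N i + y ≤ 2 * N := by
    filter_upwards [hWev, eventually_ge_atTop (4 * y + 8)] with N hW h6 i hi
    have hW4' := hW.2
    have h7 : N < W N * (N / W N + 1) := Nat.lt_mul_div_succ N (hWpos N)
    have h8 : W N * (N / W N) ≤ N := Nat.mul_div_le N (W N)
    have h9 : 2 * W N * m N ≤ N := Nat.mul_div_le N (2 * W N)
    have h10 := hr (z (2 * N))
    have h11 : W N * i ≤ W N * m N := Nat.mul_le_mul_left _ hi.le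
    have h12 : x N i = r (z (2 * N)) + (W N * (N / W N) + W N + W N * i) := by
      show r (z (2 * N)) + W N * (N / W N + 1 + i) = _
      ring
    have h13 : W N * (N / W N + 1) = W N * (N / W N) + W N := by ring
    have h14 : 2 * W N * m N = 2 * (W N * m N) := by ring
    have h15 : r (z (2 * N)) < W N := h10
    constructor <;> omega
  have hposev : ∀ᶠ N : ℕ in atTop, ∀ i < m N, ∀ h ∈ H, x N i + h ≤ 2 * N := by
    filter_upwards [hxev] with N hN i hi h hh
    have h1 := hN i hi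
    have h2 := hy h hh
    omega
  have hbad : ∀ᶠ N : ℕ in atTop, μ.real (bad N) ≤ 1 / (N : ℝ) ^ 2 := by
    filter_upwards [hWev, hWge, hlog, hbig, eventually_ge_atTop 8, hxev] with N hWev h2 h3 h4 h6 hx
    have hWN := hWev.1
    have hN0 : (0 : ℝ) < N := by exact_mod_cast (by omega : 0 < N)
    have hN1 : (1 : ℝ) ≤ N := by exact_mod_cast (by omega : 1 ≤ N)
    -- many positions
    have hm : (N : ℝ) ^ κ / 8 ≤ m N := by
      have h7 : N < 2 * W N * (m N + 1) := by
        have := Nat.lt_mul_div_succ N (show 0 < 2 * W N by have := hWpos N; omega)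
        simpa [m] using this
      have h8 : (N : ℝ) < 2 * W N * (m N + 1) := by exact_mod_cast h7
      have hWp : (0 : ℝ) < W N := by exact_mod_cast hWpos N
      have h9 : (N : ℝ) ^ κ / 4 < m N + 1 := by
        have h10 : (W N : ℝ) * (N : ℝ) ^ κ < 4 * (W N * (m N + 1)) := by linarith
        have h11 : (W N : ℝ) * (N : ℝ) ^ κ < W N * (4 * (m N + 1)) := by linarith
        have h12 := lt_of_mul_lt_mul_left h11 hWp.le
        linarith
      linarith
    have h2N0 : (0 : ℝ) < 2 * N := by positivity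
    have h2N1 : (1 : ℝ) ≤ 2 * N := by linarith
    have ha0 : 0 < (2 * N : ℝ) ^ (-δ) := Real.rpow_pos_of_pos h2N0 _
    have hinj : ∀ i, Set.InjOn (fun h => x N i + h) (H : Set ℕ) := by
      intro i a _ b _ hab
      simp only at hab
      omega
    have h7 := none_le (μ := μ) hB ((2 * N : ℝ) ^ (-δ)) ha0.le k (fun i => H.image (fun h => x N i + h))
      (fun i => x N i) (m N) (fun i _ => by rw [card_image_of_injOn (hinj i), hk])
      (fun i _ n hn => by
        rw [mem_image] at hn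
        obtain ⟨h, hh, rfl⟩ := hn
        have := hH0 h hh
        omega)
      (fun i j hij _ n hn => by
        rw [mem_image] at hn
        obtain ⟨h, hh, rfl⟩ := hn
        have h7 : x N i + W N ≤ x N j := by
          have h8 : W N * (i + 1) ≤ W N * j := Nat.mul_le_mul_left _ hij
          show r (z (2 * N)) + W N * (N / W N + 1 + i) + W N ≤ r (z (2 * N)) + W N * (N / W N + 1 + j)
          have e1 : W N * (N / W N + 1 + i) + W N = W N * (N / W N + 1) + W N * (i + 1) := by ring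
          have e2 : W N * (N / W N + 1 + j) = W N * (N / W N + 1) + W N * j := by ring
          omega
        have h9 := hy h hh
        omega)
      (fun i hi n hn D hD => by
        rw [mem_image] at hn
        obtain ⟨h, hh, rfl⟩ := hn
        obtain ⟨hx1, hx2⟩ := hx i hi
        have hhy := hy h hh
        have hn2 : x N i + h ≤ 2 * N := by omega
        have hpos : (1 : ℝ) ≤ ((x N i + h : ℕ) : ℝ) := by exact_mod_cast (by omega : 1 ≤ x N i + h)
        have hc : (2 * N : ℝ) ^ (-δ) ≤ c (x N i + h) := by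
          apply Real.rpow_le_rpow_of_nonpos
          · linarith
          · exact_mod_cast hn2
          · linarith
        have hc1 : c (x N i + h) ≤ 1 := Real.rpow_le_one_of_one_le_of_nonpos hpos (by linarith)
        have h8 := step (μ := μ) hM.adapted (c (x N i + h)) hc1 (x N i + h - 1) D hD
        rw [Nat.sub_add_cancel (by omega)] at h8
        exact (mul_le_mul_of_nonneg_right hc measureReal_nonneg).trans h8)
    have hprob : (N : ℝ) ^ (-(κ / 2)) / 2 ≤ ((2 * N : ℝ) ^ (-δ)) ^ k := by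
      calc (N : ℝ) ^ (-(κ / 2)) / 2 ≤ (2 * N : ℝ) ^ (-(κ / 2)) := by
            rw [Real.mul_rpow (by norm_num) hN0.le, div_eq_mul_inv, mul_comm]
            apply mul_le_mul_of_nonneg_right _ (by positivity)
            rw [← Real.rpow_neg_one (2 : ℝ)]
            exact Real.rpow_le_rpow_of_exponent_le (by norm_num) (by linarith)
        _ ≤ (2 * N : ℝ) ^ (-δ * k) := Real.rpow_le_rpow_of_exponent_le h2N1 (by linarith)
        _ = ((2 * N : ℝ) ^ (-δ)) ^ k := by rw [Real.rpow_mul h2N0.le, Real.rpow_natCast]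
    refine h7.trans ?_
    have h8 : 2 * Real.log N ≤ m N * ((N : ℝ) ^ (-(κ / 2)) / 2) := by
      have e1 : (N : ℝ) ^ κ / 8 * ((N : ℝ) ^ (-(κ / 2)) / 2) = (N : ℝ) ^ (κ / 2) / 16 := by
        have e2 : (N : ℝ) ^ κ * (N : ℝ) ^ (-(κ / 2)) = (N : ℝ) ^ (κ / 2) := by
          rw [← Real.rpow_add hN0]
          congr 1
          ring
        calc (N : ℝ) ^ κ / 8 * ((N : ℝ) ^ (-(κ / 2)) / 2) =
              (N : ℝ) ^ κ * (N : ℝ) ^ (-(κ / 2)) / 16 := by ring
          _ = _ := by rw [e2]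
      have h9 : (N : ℝ) ^ κ / 8 * ((N : ℝ) ^ (-(κ / 2)) / 2) ≤ m N * ((N : ℝ) ^ (-(κ / 2)) / 2) :=
        mul_le_mul_of_nonneg_right hm (by positivity)
      rw [e1] at h9
      linarith
    have h10 : (m N : ℝ) * ((N : ℝ) ^ (-(κ / 2)) / 2) ≤ m N * ((2 * N : ℝ) ^ (-δ)) ^ k :=
      mul_le_mul_of_nonneg_left hprob (Nat.cast_nonneg _)
    calc Real.exp (-(m N * ((2 * N : ℝ) ^ (-δ)) ^ k)) ≤ Real.exp (-(2 * Real.log N)) :=
          Real.exp_le_exp.2 (by linarith)
      _ = 1 / (N : ℝ) ^ 2 := by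
          rw [Real.exp_neg, mul_comm, Real.exp_mul, Real.exp_log hN0, one_div]
          norm_num
  obtain ⟨n1, hn1⟩ := eventually_atTop.1 hbad
  have hsum : (∑' i, μ (bad (i + n1))) ≠ ∞ := by
    have h1 : Summable (fun i : ℕ => 1 / ((i + n1 : ℕ) : ℝ) ^ 2) :=
      (summable_nat_add_iff n1).2 (Real.summable_one_div_nat_pow.2 (by norm_num))
    refine ne_top_of_le_ne_top h1.tsum_ofReal_ne_top (ENNReal.tsum_le_tsum fun i => ?_)
    rw [ENNReal.le_ofReal_iff_toReal_le (measure_ne_top μ _) (by positivity)]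
    exact hn1 (i + n1) (by omega)
  filter_upwards [ae_eventually_notMem hsum, hM.large δ hδ0] with ω hω hlarge
  obtain ⟨i0, hi0⟩ := eventually_atTop.1 hω
  obtain ⟨n2, hn2⟩ := eventually_atTop.1 hlarge
  obtain ⟨n3, hpos⟩ := eventually_atTop.1 hposev
  refine eventually_atTop.2 ⟨i0 + n1 + n2 + n3 + 1, fun N hN => ?_⟩
  have h1 := hi0 (N - n1) (by omega)
  rw [Nat.sub_add_cancel (by omega)] at h1
  have h2 : ∃ i < m N, ω ∈ ⋂ n ∈ H.image (fun h => x N i + h), B n := by
    by_contra hcon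
    push Not at hcon
    apply h1
    simp only [bad, Set.mem_iInter, Set.mem_compl_iff]
    intro i hi h3
    exact hcon i (mem_range.1 hi) (by simpa only [Set.mem_iInter] using h3)
  obtain ⟨i, hi, h3⟩ := h2
  have h7 : N < W N * (N / W N + 1) := Nat.lt_mul_div_succ N (hWpos N)
  have hNx : N ≤ x N i := by
    show N ≤ r (z (2 * N)) + W N * (N / W N + 1 + i)
    have e1 : W N * (N / W N + 1 + i) = W N * (N / W N + 1) + W N * i := by ring
    omega
  have hi' : m N ≠ 0 := by omega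
  -- the positions are at most `2 N`
  refine ⟨x N i, hNx, fun h hh => ?_⟩
  simp only [Set.mem_iInter] at h3
  have h4 := h3 (x N i + h) (mem_image.2 ⟨h, hh, rfl⟩)
  have h5 := hH0 h hh
  rcases h4 with h4 | h4
  · exact h4
  · exfalso
    have h6 := hn2 (x N i + h - 1) (by omega)
    rw [Nat.sub_add_cancel (by omega)] at h6
    have hxle : x N i + h ≤ 2 * N := hpos N (by omega) i hi h hh
    have hf : Free (z (x N i + h)) (x N i + h) := fun p hp hpz =>
      hfree (z (2 * N)) (N / W N + 1 + i) h hh p hp (hpz.trans (hM.mono hxle))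
    have h8 := h6 hf
    unfold Fail at h4
    rw [Set.mem_ofPred_eq, Nat.sub_add_cancel (by omega)] at h4
    exact absurd h4 (not_lt.2 h8)

/-! ### The exact value of `ρ` -/

open Classical in
/-- the number of elements of `T` in `(x, x + y]` -/
noncomputable def count (T : Set ℕ) (x y : ℕ) : ℕ := ((Ioc x (x + y)).filter (fun n => n ∈ T)).card

/-- `r` is the limsup, as `x → ∞`, of the number of elements of `T` in `(x, x + y]` -/
def IsRho (T : Set ℕ) (y r : ℕ) : Prop :=
  (∀ᶠ x : ℕ in atTop, count T x y ≤ r) ∧ ∃ᶠ x : ℕ in atTop, count T x y = r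

open Classical in
/-- the largest size of an admissible subset of `{1, ..., y}` -/
noncomputable def rhoStar (y : ℕ) : ℕ := ((Icc 1 y).powerset.filter Admissible).sup card

lemma le_rhoStar {H : Finset ℕ} {y : ℕ} (h1 : H ⊆ Icc 1 y) (h2 : Admissible H) : H.card ≤ rhoStar y := by
  classical
  unfold rhoStar
  exact Finset.le_sup (f := card) (mem_filter.2 ⟨mem_powerset.2 h1, h2⟩)

lemma exists_rhoStar (y : ℕ) : ∃ H : Finset ℕ, H ⊆ Icc 1 y ∧ Admissible H ∧ H.card = rhoStar y := by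
  classical
  have hne : ((Icc 1 y).powerset.filter Admissible).Nonempty :=
    ⟨∅, mem_filter.2 ⟨mem_powerset.2 (empty_subset _), fun p _ => ⟨0, fun h hh => absurd hh (notMem_empty h)⟩⟩⟩
  obtain ⟨H, hH, he⟩ := Finset.exists_mem_eq_sup _ hne card
  rw [mem_filter, mem_powerset] at hH
  exact ⟨H, hH.1, hH.2, he.symm⟩

omit [IsProbabilityMeasure μ] in
lemma upper (hM : Model μ ℱ z A) (ω : Ω) (y : ℕ) :
    ∀ᶠ x : ℕ in atTop, count {n | ω ∈ A n} x y ≤ rhoStar y := by
  classical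
  filter_upwards [hM.tend.eventually_ge_atTop y] with x hx
  unfold count
  obtain ⟨T, hT⟩ : ∃ T, T = (Ioc x (x + y)).filter (fun n => n ∈ {n | ω ∈ A n}) := ⟨_, rfl⟩
  rw [← hT]
  have hmem : ∀ n ∈ T, x < n ∧ n ≤ x + y ∧ ω ∈ A n := by
    intro n hn
    rw [hT, mem_filter, mem_Ioc] at hn
    exact ⟨hn.1.1, hn.1.2, hn.2⟩
  have hinj : Set.InjOn (fun n => n - x) (T : Set ℕ) := by
    intro a ha b hb hab
    have h1 := (hmem a ha).1
    have h2 := (hmem b hb).1
    simp only at hab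
    omega
  rw [← card_image_of_injOn hinj]
  apply le_rhoStar
  · intro h hh
    rw [mem_image] at hh
    obtain ⟨n, hn, rfl⟩ := hh
    obtain ⟨h1, h2, _⟩ := hmem n hn
    rw [mem_Icc]
    omega
  · intro p hp
    by_cases hpy : p ≤ y
    · -- the class of `-x`
      refine ⟨p * x - x, fun h hh hc => ?_⟩
      rw [mem_image] at hh
      obtain ⟨n, hn, rfl⟩ := hh
      obtain ⟨h1, h2, h3⟩ := hmem n hn
      have hfree : Free (z n) n := by
        by_contra hcon
        rw [hM.sieved n hcon] at h3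
        exact h3
      apply hfree p hp (hpy.trans (hx.trans (hM.mono h1.le)))
      have h4 : x ≤ p * x := Nat.le_mul_of_pos_left _ hp.pos
      have h5 : n - x + x ≡ p * x - x + x [MOD p] := Nat.ModEq.add_right _ hc
      rw [Nat.sub_add_cancel h1.le, Nat.sub_add_cancel h4] at h5
      exact (Nat.modEq_zero_iff_dvd).1 (h5.trans ((Nat.modEq_zero_iff_dvd).2 (Dvd.intro _ rfl)))
    · refine ⟨0, fun h hh hc => ?_⟩
      rw [mem_image] at hh
      obtain ⟨n, hn, rfl⟩ := hh
      obtain ⟨h1, h2, _⟩ := hmem n hn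
      have h4 := Nat.le_of_dvd (by omega) ((Nat.modEq_zero_iff_dvd).1 hc)
      omega

/-- **The exact value of `ρ`.** -/
theorem rho_eq (hM : Model μ ℱ z A) : ∀ᵐ ω ∂μ, ∀ y : ℕ, IsRho {n | ω ∈ A n} y (rhoStar y) := by
  classical
  rw [ae_all_iff]
  intro y
  obtain ⟨H, hH1, hH2, hH3⟩ := exists_rhoStar y
  filter_upwards [pattern hM H hH2 (fun h hh => (mem_Icc.1 (hH1 hh)).1)] with ω hω
  have hup := upper hM ω y
  refine ⟨hup, ?_⟩
  rw [frequently_atTop]
  intro a
  obtain ⟨b, hb⟩ := eventually_atTop.1 hup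
  obtain ⟨N0, hN0⟩ := eventually_atTop.1 hω
  obtain ⟨x, hx, hxH⟩ := hN0 (max N0 (max a b)) (le_max_left _ _)
  have hxa : a ≤ x := (le_max_left a b).trans ((le_max_right _ _).trans hx)
  have hxb : b ≤ x := (le_max_right a b).trans ((le_max_right _ _).trans hx)
  refine ⟨x, hxa, le_antisymm (hb x hxb) ?_⟩
  rw [← hH3]
  unfold count
  have hinj : Set.InjOn (fun h => x + h) (H : Set ℕ) := by
    intro c _ d _ hcd
    simp only at hcd
    omega
  rw [← card_image_of_injOn hinj]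
  apply card_le_card
  intro n hn
  rw [mem_image] at hn
  obtain ⟨h, hh, rfl⟩ := hn
  have h1 := mem_Icc.1 (hH1 hh)
  rw [mem_filter, mem_Ioc]
  exact ⟨by omega, hxH h hh⟩

end Pool.Agent.R935.GS
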